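import Pool.Agent.Helper18.FF3.Stmts

set_option autoImplicit false

namespace Pool.Agent.Helper18.FF3

open Polynomial Pool.Agent.Helper14.BSC Pool.Agent.Helper60.FF

theorem st_RBX (hK : ST_KDR) (hG : ST_GDS) (hD : ST_DES) : ST_RBX := by
  intro F k Ω _ _ _ _ _ _ _ _ _ D t ht p n _ K L ρ hρ hrel
  have := K.acl
  choose e g he hx hH using L.nrm
  have hN : ∀ m c (hm : 0 < m), Algebra.norm (RatFunc F) (e m c hm) ≠ 0 := fun m c hm =>
    Algebra.norm_ne_zero_iff.2 (he m c hm)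
  have hKDR := hK p n K ρ hρ hrel
  classical
  obtain ⟨ρ₀, r, hr, hρ₀⟩ := hG F K.A L.ι L.alg ρ
    (fun m c => if hm : 0 < m then Algebra.norm (RatFunc F) (e m c hm) else 1) hρ
    (by
      intro m c hm _
      rw [dif_pos hm]
      exact hN m c hm)
    (by
      intro m hm c c' h1 h2
      obtain ⟨b, z, hb, hz, h3⟩ := hKDR m hm (mp L.ι c) (mp L.ι c') h1 h2
      refine ⟨b, z, hb, hz, ?_⟩
      rw [dif_pos hm, dif_pos hm, ← hH m c hm, ← hH m c' hm]
      exact h3)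
  have hev : ∀ c : RatFunc F, ρ.eval (mp L.ι c) = r * mp L.ι (ρ₀.eval c) := by
    intro c
    rw [hρ₀, eval_mul, eval_C, eval_map, eval₂_at_apply]
  have hρ₀0 : ρ₀ ≠ 0 := by
    rintro rfl
    apply hρ
    rw [hρ₀, Polynomial.map_zero, mul_zero]
  refine ⟨ρ₀, hρ₀0, ?_⟩
  intro c c' hc hc' m hm
  have hmp : ∀ y : RatFunc F, y ≠ 0 → mp L.ι y ≠ 0 := fun y hy => (map_ne_zero (mp L.ι)).2 hy
  have h1 : ρ.eval (mp L.ι c) ≠ 0 := by
    rw [hev]
    exact mul_ne_zero hr (hmp _ hc)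
  have h2 : ρ.eval (mp L.ι c') ≠ 0 := by
    rw [hev]
    exact mul_ne_zero hr (hmp _ hc')
  obtain ⟨b, z, hb, hz, h3⟩ := hKDR m hm (mp L.ι c) (mp L.ι c') h1 h2
  rw [hH m c hm, hH m c' hm, hev, hev] at h3
  set N := Algebra.norm (RatFunc F) (e m c hm) with hNdef
  set N' := Algebra.norm (RatFunc F) (e m c' hm) with hN'def
  have hN0 : N ≠ 0 := hN m c hm
  have hN'0 : N' ≠ 0 := hN m c' hm
  have h4 : mp L.ι (N * ρ₀.eval c' / (N' * ρ₀.eval c)) = RatFunc.C b * z ^ m := by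
    rw [map_div₀, map_mul, map_mul, div_eq_iff (mul_ne_zero (hmp _ hN'0) (hmp _ hc))]
    apply mul_left_cancel₀ hr
    linear_combination h3
  obtain ⟨b', z', hb', hz', h5⟩ := hD F K.A L.ι L.alg m hm (N * ρ₀.eval c' / (N' * ρ₀.eval c))
    (div_ne_zero (mul_ne_zero hN0 hc') (mul_ne_zero hN'0 hc)) ⟨b, z, h4⟩
  refine ⟨e m c hm / e m c' hm, g m c hm / g m c' hm, div_ne_zero (he m c hm) (he m c' hm), ?_,
    b', z', hb', hz', ?_⟩
  · rw [hx m c hm, hx m c' hm, map_div₀, div_pow, mul_div_mul_comm]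
  · have h6 : Algebra.norm (RatFunc F) (e m c hm / e m c' hm) * N' = N := by
      rw [hN'def, ← map_mul, div_mul_cancel₀ _ (he m c' hm)]
    have h7 : Algebra.norm (RatFunc F) (e m c hm / e m c' hm) = N / N' := by
      rw [eq_div_iff hN'0]
      exact h6
    rw [h7, ← h5]
    field_simp

end Pool.Agent.Helper18.FF3
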